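import Mathlib
import Pool.Agent.U945.LA.One

/-!
# The numbers `(x e) ^ (β e)` and `x ^ ξ e ^ (η₀ + η₁ z₁ + ⋯)` with all algebraic bases `x`

The number `e ^ e` is the member `x = 1`, `β = 1` of the family of the numbers `(x e) ^ (β e)` with
algebraic `x ≠ 0` and algebraic `β ≠ 0`.

(1) The algebraic numbers `x ≠ 0` such that some number `(x e) ^ (β e)`, for some algebraic `β ≠ 0` and
some value of `log x`, is of the form `e ^ γ α_1 ^ β_1 ⋯ α_k ^ β_k` (with algebraic `γ`, `α_i ≠ 0`,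
`β_i`), in particular if it is algebraic, are contained in one coset of a group of rank at most `1`.
Every complex line `a x + b y = 1`, `a b ≠ 0`, contains at most `C` pairs `(x, y)` of such numbers, with
an absolute constant `C`.

(2) The algebraic numbers `x ≠ 0` such that some number `(x e ^ c) ^ (β e)`, for some algebraic `c` and
`β ≠ 0`, is of this form are a group which is closed under roots. Its rank is at most `2`, and at most
`1` if `e ^ e` is of this form, in particular if `e ^ e` is algebraic.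

(3) The same for larger families, with many exponents at the same time. Let `t_1, …, t_r` and
`z_1, …, z_s` be any complex numbers. Consider all algebraic numbers `x ≠ 0` such that a number

  `x ^ ξ e ^ (η₀ + η₁ z₁ + ⋯ + η_s z_s)`

is of this form, for SOME value of `log x` and SOME exponents `ξ`, `η₀, …, η_s` in the field generated
by `e`, `t_1, …, t_r` over the algebraic numbers, `ξ` transcendental, which are quotients of polynomials
of degree at most `D` in each variable with a common denominator. There are at most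
`2 ^ (r + 2) ((2 D) ^ (r + 1) + s)` multiplicatively independent ones among them. For every algebraic
subset `Z` of `G_m^d` over `ℂ` the points of `Z` with all coordinates of this kind are contained in
finitely many cosets of algebraic subgroups, which are contained in `Z`; so they are finite in number if
`Z` is a curve which is not a finite union of cosets. For instance, all but finitely many algebraic
numbers `x` are such that for `x` or for `x + 1` none of these numbers is algebraic.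

Ingredients: the hyperplane case of the linear subgroup theorem of Waldschmidt and Roy, Baker's theorem,
the method for integral bases of `Pool.Agent.HP778` (starting files), the theorem on the unit equation in
groups of finite rank of algebraic numbers (Laurent), proved in `Pool.Agent.U945.LA`, and for lines the
theorem of Beukers and Schlickewei.
-/

set_option autoImplicit false

namespace Pool.Agent.Results.MP_58ae59_nt.AlgebraicBases

open Pool.Agent.U945.LA (RkLe rkLe_of_logs many line_set line_coset dep_of_one pack rank_mul li_cons)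
open Pool.Agent.H301R2.SSE (QB mem_QB Lt Lt_one Lt_alg Lt_log Lt_mul Lg mem_Lg LB LB_log LB_mul)

/-- The linear combinations, with algebraic coefficients, of `1` and of logarithms of algebraic
numbers. The numbers `e ^ w` with `w` in `LogForms` are the numbers `e ^ γ α_1 ^ β_1 ⋯ α_k ^ β_k` with
algebraic `γ`, `α_i ≠ 0`, `β_i`; if `e ^ w` is algebraic, then `w` is in `LogForms`. -/
noncomputable def LogForms : Submodule (algebraicClosure ℚ ℂ) ℂ :=
  Submodule.span (algebraicClosure ℚ ℂ) ({1} ∪ {z : ℂ | IsAlgebraic ℚ (Complex.exp z)})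

/-- `l` is a logarithm of `x`, up to a rational multiple of `2 π i` -/
def IsLog (x : ℂˣ) (l : ℂ) : Prop := ∃ n : ℕ, 0 < n ∧ Complex.exp (n * l) = (x : ℂ) ^ n

/-- The algebraic numbers `x ≠ 0` such that, for some algebraic `β ≠ 0` and some logarithm `l` of `x`,
the logarithm `β e (l + 1)` of `(x e) ^ (β e)` is in `LogForms`. -/
def Family : Set ℂˣ :=
  {x | IsAlgebraic ℚ (x : ℂ) ∧ ∃ β : ℂ, IsAlgebraic ℚ β ∧ β ≠ 0 ∧ ∃ l : ℂ, IsLog x l ∧
    β * Real.exp 1 * (l + 1) ∈ LogForms}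

/-- The algebraic numbers `x ≠ 0` such that, for some algebraic `β ≠ 0` and `c` and some logarithm `l`
of `x`, the logarithm `β e (l + c)` of `(x e ^ c) ^ (β e)` is in `LogForms`. -/
def LargeFamily : Set ℂˣ :=
  {x | IsAlgebraic ℚ (x : ℂ) ∧ ∃ β c : ℂ, IsAlgebraic ℚ β ∧ β ≠ 0 ∧ IsAlgebraic ℚ c ∧
    ∃ l : ℂ, IsLog x l ∧ β * Real.exp 1 * (l + c) ∈ LogForms}

/-- The tuples `(ξ, η)` with `ξ = P(t) / Q(t)` transcendental and `η_k = S_k(t) / Q(t)`, where `P`, `Q`,
`S_k` are polynomials with algebraic coefficients, of degree at most `D` in each variable. -/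
def Exponents {r s : ℕ} (t : Fin r → ℂ) (D : ℕ) : Set (ℂ × (Fin s → ℂ)) :=
  {e | Transcendental ℚ e.1 ∧ ∃ (P Q : MvPolynomial (Fin r) (algebraicClosure ℚ ℂ))
    (S : Fin s → MvPolynomial (Fin r) (algebraicClosure ℚ ℂ)),
    (∀ i, P.degreeOf i ≤ D) ∧ (∀ i, Q.degreeOf i ≤ D) ∧ (∀ k i, (S k).degreeOf i ≤ D) ∧
    MvPolynomial.aeval t Q ≠ 0 ∧ e.1 = MvPolynomial.aeval t P / MvPolynomial.aeval t Q ∧
    ∀ k, e.2 k = MvPolynomial.aeval t (S k) / MvPolynomial.aeval t Q}

/-- The algebraic numbers `x ≠ 0` such that `ξ l + ∑ k, η_k z_k`, the logarithm of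
`x ^ ξ e ^ (∑ k, η_k z_k)`, is in `LogForms` for SOME logarithm `l` of `x` and SOME exponents. -/
def Bases {r s : ℕ} (t : Fin r → ℂ) (z : Fin s → ℂ) (D : ℕ) : Set ℂˣ :=
  {x | IsAlgebraic ℚ (x : ℂ) ∧ ∃ e ∈ Exponents t D, ∃ l : ℂ, IsLog x l ∧
    e.1 * l + ∑ k, e.2 k * z k ∈ LogForms}

/-- `A` contains at most `B` multiplicatively independent elements. -/
def RankAtMost (A : Set ℂˣ) (B : ℕ) : Prop :=
  ∀ (n : ℕ) (X : Fin n → ℂˣ), (∀ j, X j ∈ A) → (∀ k : Fin n → ℤ, ∏ j, X j ^ k j = 1 → k = 0) → n ≤ B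

/-- The coset of an algebraic subgroup of the torus: the `z` such that `z ^ m = y ^ m` for all `m` in
the finite set `M` of integral vectors. -/
def Coset {d : ℕ} (y : Fin d → ℂˣ) (M : Finset (Fin d → ℤ)) : Set (Fin d → ℂˣ) :=
  {z | ∀ m ∈ M, ∏ i, z i ^ m i = ∏ i, y i ^ m i}

/-- The algebraic subset of the torus defined by the polynomials `P j`. -/
def Zeros {d s : ℕ} (P : Fin s → MvPolynomial (Fin d) ℂ) : Set (Fin d → ℂˣ) :=
  {z | ∀ j, MvPolynomial.eval (fun i => (z i : ℂ)) (P j) = 0}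

theorem e_tr : Transcendental ℚ ((Real.exp 1 : ℝ) : ℂ) := by
  push_cast
  exact Pool.Agent.H340R2.LW.transcendental_exp_one_complex

theorem e_ne : ((Real.exp 1 : ℝ) : ℂ) ≠ 0 := by exact_mod_cast Real.exp_ne_zero 1

theorem log_mem {x : ℂˣ} {l : ℂ} (hx : IsAlgebraic ℚ (x : ℂ)) (hl : IsLog x l) :
    IsAlgebraic ℚ (Complex.exp l) := by
  obtain ⟨n, hn, h⟩ := hl
  apply IsAlgebraic.of_pow hn
  rw [← Complex.exp_nat_mul, h]
  exact hx.pow _

theorem log_div {x y : ℂˣ} {l l' : ℂ} (hl : IsLog x l) (hl' : IsLog y l') :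
    IsLog (y / x) (l' - l) := by
  obtain ⟨n, hn, hl⟩ := hl
  obtain ⟨n', hn', hl'⟩ := hl'
  refine ⟨n * n', Nat.mul_pos hn hn', ?_⟩
  have e1 : ((n * n' : ℕ) : ℂ) * (l' - l) = n * (n' * l') - n' * (n * l) := by
    push_cast
    ring
  rw [e1, Complex.exp_sub, Complex.exp_nat_mul (n' * l') n, hl',
    Complex.exp_nat_mul (n * l) n', hl, Units.val_div_eq_div_val, div_pow, ← pow_mul, ← pow_mul,
    mul_comm n' n]

theorem log_mul {x y : ℂˣ} {l l' : ℂ} (hl : IsLog x l) (hl' : IsLog y l') :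
    IsLog (x * y) (l + l') := by
  obtain ⟨n, hn, hl⟩ := hl
  obtain ⟨n', hn', hl'⟩ := hl'
  refine ⟨n * n', Nat.mul_pos hn hn', ?_⟩
  have e1 : ((n * n' : ℕ) : ℂ) * (l + l') = n' * (n * l) + n * (n' * l') := by
    push_cast
    ring
  rw [e1, Complex.exp_add, Complex.exp_nat_mul (n' * l') n, hl',
    Complex.exp_nat_mul (n * l) n', hl, Units.val_mul, mul_pow, ← pow_mul, ← pow_mul, mul_comm n' n]

/-- the factor `β` does not matter -/
theorem cancel {β w : ℂ} (hβ : IsAlgebraic ℚ β) (hβ0 : β ≠ 0)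
    (h : β * Real.exp 1 * w ∈ LogForms) : ((Real.exp 1 : ℝ) : ℂ) * w ∈ Lt := by
  have h1 := Lt_mul hβ.inv h
  have h2 : β⁻¹ * (β * Real.exp 1 * w) = ((Real.exp 1 : ℝ) : ℂ) * w := by
    field_simp
  rwa [h2] at h1

theorem quo_rank (x : ℂˣ) (hx : x ∈ Family) : RkLe {g | ∃ y ∈ Family, g = y / x} 1 := by
  obtain ⟨hxa, β, hβ, hβ0, l, hl, h1⟩ := hx
  have h1' := cancel hβ hβ0 h1
  refine rkLe_of_logs (R := fun v => ((Real.exp 1 : ℝ) : ℂ) * v ∈ Lt)
    (fun m v halg hli h => ?_) ?_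
  · have h3 := rank_mul e_tr (li_cons halg hli isAlgebraic_one one_ne_zero
      (LB_log (log_mem hxa hl))) (fun i => by
        refine Fin.cases ?_ (fun i => ?_) i
        · rw [Fin.cons_zero]
          exact add_mem (Lt_log (log_mem hxa hl)) Lt_one
        · rw [Fin.cons_succ]
          exact Lt_log (halg i)) (fun i => by
        refine Fin.cases ?_ (fun i => ?_) i
        · rw [Fin.cons_zero]
          exact h1'
        · rw [Fin.cons_succ]
          exact h i)
    omega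
  · rintro g ⟨y, ⟨hya, β', hβ', hβ0', l', hl', h2⟩, rfl⟩
    refine ⟨?_, l' - l, log_div hl hl', ?_⟩
    · rw [Units.val_div_eq_div_val, div_eq_mul_inv]
      exact hya.mul hxa.inv
    · have h4 := sub_mem (cancel hβ' hβ0' h2) h1'
      have h5 : ((Real.exp 1 : ℝ) : ℂ) * (l' - l) = ((Real.exp 1 : ℝ) : ℂ) * (l' + 1) -
          ((Real.exp 1 : ℝ) : ℂ) * (l + 1) := by ring
      rw [h5]
      exact h4

/-- the large family as a group -/
def LF : Subgroup ℂˣ where
  carrier := LargeFamily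
  mul_mem' := by
    rintro x y ⟨hxa, β, c, hβ, hβ0, hc, l, hl, h1⟩ ⟨hya, β', c', hβ', hβ0', hc', l', hl', h2⟩
    refine ⟨by rw [Units.val_mul]; exact hxa.mul hya, 1, c + c', isAlgebraic_one, one_ne_zero,
      hc.add hc', l + l', log_mul hl hl', ?_⟩
    have h3 := add_mem (cancel hβ hβ0 h1) (cancel hβ' hβ0' h2)
    have h4 : 1 * ((Real.exp 1 : ℝ) : ℂ) * (l + l' + (c + c')) =
        ((Real.exp 1 : ℝ) : ℂ) * (l + c) + ((Real.exp 1 : ℝ) : ℂ) * (l' + c') := by ring
    rw [h4]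
    exact h3
  one_mem' := ⟨isAlgebraic_one, 1, 0, isAlgebraic_one, one_ne_zero, isAlgebraic_zero, 0,
    ⟨1, one_pos, by simp⟩, by simp⟩
  inv_mem' := by
    rintro x ⟨hxa, β, c, hβ, hβ0, hc, l, ⟨n, hn, hl⟩, h1⟩
    refine ⟨by rw [Units.val_inv_eq_inv_val]; exact hxa.inv, β, -c, hβ, hβ0, hc.neg, -l,
      ⟨n, hn, ?_⟩, ?_⟩
    · rw [mul_neg, Complex.exp_neg, hl, Units.val_inv_eq_inv_val, inv_pow]
    · have h2 : β * (Real.exp 1 : ℝ) * (-l + -c) = -(β * (Real.exp 1 : ℝ) * (l + c)) := by ring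
      rw [h2]
      exact neg_mem h1

theorem LF_root {x : ℂˣ} {n : ℕ} (hn : 0 < n) (h : x ^ n ∈ LargeFamily) : x ∈ LargeFamily := by
  obtain ⟨hxa, β, c, hβ, hβ0, hc, l, ⟨k, hk, hl⟩, h1⟩ := h
  have hn' : (n : ℂ) ≠ 0 := by exact_mod_cast hn.ne'
  refine ⟨IsAlgebraic.of_pow hn (by rw [← Units.val_pow_eq_pow_val]; exact hxa), β * n, c / n,
    hβ.mul (isAlgebraic_natCast n), mul_ne_zero hβ0 hn', ?_, l / n, ⟨n * k, Nat.mul_pos hn hk, ?_⟩,
    ?_⟩
  · rw [div_eq_mul_inv]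
    exact hc.mul (isAlgebraic_natCast n).inv
  · rw [Units.val_pow_eq_pow_val] at hl
    rw [pow_mul, ← hl]
    congr 1
    push_cast
    field_simp
  · have h2 : β * n * (Real.exp 1 : ℝ) * (l / n + c / n) = β * (Real.exp 1 : ℝ) * (l + c) := by
      field_simp
    rw [h2]
    exact h1

theorem LF_vec {m : ℕ} {l c : Fin m → ℂ} (halg : ∀ i, IsAlgebraic ℚ (Complex.exp (l i)))
    (hli : LinearIndependent ℚ l) (hc : ∀ i, IsAlgebraic ℚ (c i)) :
    LinearIndependent QB (Fin.cons 1 (fun i => l i + c i) : Fin (m + 1) → ℂ) := by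
  rw [Fintype.linearIndependent_iff]
  intro g hg
  rw [Fin.sum_univ_succ] at hg
  simp only [Fin.cons_zero, Fin.cons_succ] at hg
  have h1 := Pool.Agent.H297R2.baker_inhom l halg hli
    ((g 0 : ℂ) + ∑ i : Fin m, (g i.succ : ℂ) * c i)
    (mem_QB.1 (add_mem (g 0).2 (sum_mem fun i _ => mul_mem (g i.succ).2 (mem_QB.2 (hc i)))))
    (fun i => (g i.succ : ℂ)) (fun i => mem_QB.1 (g i.succ).2) (by
      rw [← hg]
      have e1 : ∀ i : Fin m, g i.succ • (l i + c i) = (g i.succ : ℂ) * c i + (g i.succ : ℂ) * l i := by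
        intro i
        rw [Algebra.smul_def]
        change (g i.succ : ℂ) * (l i + c i) = _
        ring
      have e2 : g 0 • (1 : ℂ) = (g 0 : ℂ) := by
        rw [Algebra.smul_def, mul_one]
        rfl
      rw [e2, Finset.sum_congr rfl fun i _ => e1 i, Finset.sum_add_distrib, add_assoc])
  have h2 : ∀ i : Fin m, g i.succ = 0 := fun i => Subtype.ext (h1.2 i)
  have h3 : g 0 = 0 := by
    have := h1.1
    rw [Finset.sum_eq_zero (fun i _ => by rw [h1.2 i, zero_mul]), add_zero] at this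
    exact Subtype.ext this
  intro i
  exact Fin.cases h3 h2 i

theorem LF_rank : RkLe LargeFamily 2 ∧ (((Real.exp 1 : ℝ) : ℂ) ∈ LogForms → RkLe LargeFamily 1) := by
  have key : ∀ x ∈ LargeFamily, IsAlgebraic ℚ (x : ℂ) ∧ ∃ l : ℂ, (∃ n : ℕ, 0 < n ∧
      Complex.exp (n * l) = (x : ℂ) ^ n) ∧ ∃ c, IsAlgebraic ℚ c ∧
        ((Real.exp 1 : ℝ) : ℂ) * (l + c) ∈ Lt := by
    rintro x ⟨hxa, β, c, hβ, hβ0, hc, l, hl, h1⟩
    exact ⟨hxa, l, hl, c, hc, cancel hβ hβ0 h1⟩
  constructor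
  · refine rkLe_of_logs (fun m l halg hli h => ?_) key
    choose c hc h1 using h
    have h2 := (LF_vec halg hli hc)
    rw [linearIndependent_finCons] at h2
    exact rank_mul e_tr h2.1 (fun i => add_mem (Lt_log (halg i)) (Lt_alg (hc i))) h1
  · intro he
    refine rkLe_of_logs (fun m l halg hli h => ?_) key
    choose c hc h1 using h
    have h3 := rank_mul e_tr (LF_vec halg hli hc) (fun i => by
        refine Fin.cases ?_ (fun i => ?_) i
        · rw [Fin.cons_zero]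
          exact Lt_one
        · rw [Fin.cons_succ]
          exact add_mem (Lt_log (halg i)) (Lt_alg (hc i))) (fun i => by
        refine Fin.cases ?_ (fun i => ?_) i
        · rw [Fin.cons_zero, mul_one]
          exact he
        · rw [Fin.cons_succ]
          exact h1 i)
    omega

/-- **The numbers `(x e) ^ (β e)` and `x ^ ξ e ^ (η₀ + ∑ k, η_k z_k)` at algebraic bases.** -/
theorem result : ∃ C : ℕ,
    -- (1) the family of the problem: one coset of a group of rank at most 1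
    (∀ x ∈ Family, ∀ y ∈ Family, ∀ z ∈ Family,
      ∃ a b : ℤ, (a ≠ 0 ∨ b ≠ 0) ∧ (y / x) ^ a = (z / x) ^ b) ∧
    (∀ a b : ℂ, a ≠ 0 → b ≠ 0 → ∀ E : Finset (ℂˣ × ℂˣ),
      (∀ e ∈ E, e.1 ∈ Family ∧ e.2 ∈ Family ∧ a * e.1 + b * e.2 = 1) → E.card ≤ C) ∧
    -- (2) the numbers `(x e ^ c) ^ (β e)`: a group of rank at most 2
    (∃ Γ : Subgroup ℂˣ, (Γ : Set ℂˣ) = LargeFamily ∧ ∀ x n, 0 < n → x ^ n ∈ Γ → x ∈ Γ) ∧
    RankAtMost LargeFamily 2 ∧
    (((Real.exp 1 : ℝ) : ℂ) ∈ LogForms → RankAtMost LargeFamily 1) ∧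
    -- (3) the numbers `x ^ ξ e ^ (η₀ + η₁ z₁ + ⋯)`
    ∀ (r s D : ℕ) (t : Fin r → ℂ) (z : Fin s → ℂ), 1 ≤ D →
      ∀ A : Set ℂˣ, A = Bases (Fin.cons (Real.exp 1 : ℂ) t : Fin (r + 1) → ℂ)
        (Fin.cons 1 z : Fin (s + 1) → ℂ) D →
      LargeFamily ⊆ A ∧
      RankAtMost A (2 ^ (r + 2) * ((2 * D) ^ (r + 1) + s)) ∧
      (∀ a b : ℂ, a ≠ 0 → b ≠ 0 → ∀ E : Finset (ℂˣ × ℂˣ),
        (∀ e ∈ E, e.1 ∈ A ∧ e.2 ∈ A ∧ a * e.1 + b * e.2 = 1) →
          E.card ≤ C ^ (2 ^ (r + 2) * ((2 * D) ^ (r + 1) + s))) ∧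
      ∀ d : ℕ,
        -- algebraic subsets
        (∀ (s : ℕ) (P : Fin s → MvPolynomial (Fin d) ℂ),
          ∃ T : Finset ((Fin d → ℂˣ) × Finset (Fin d → ℤ)),
            (∀ t ∈ T, (∀ i, t.1 i ∈ A) ∧ Coset t.1 t.2 ⊆ Zeros P) ∧
            ∀ x : Fin d → ℂˣ, (∀ i, x i ∈ A) → x ∈ Zeros P → ∃ t ∈ T, x ∈ Coset t.1 t.2) ∧
        -- algebraic subsets without infinite cosets
        (∀ (s : ℕ) (P : Fin s → MvPolynomial (Fin d) ℂ),
          (∀ y M, Coset y M ⊆ Zeros P → (Coset y M).Finite) →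
            {x | (∀ i, x i ∈ A) ∧ x ∈ Zeros P}.Finite) ∧
        -- hyperplanes
        (∀ a : Fin d → ℂ, {x : Fin d → ℂˣ | (∀ i, x i ∈ A) ∧ ∑ i, a i * (x i : ℂ) = 1 ∧
          ∀ J : Finset (Fin d), J.Nonempty → ∑ i ∈ J, a i * (x i : ℂ) ≠ 0}.Finite) := by
  obtain ⟨C, hC1, hC⟩ := line_set
  refine ⟨C ^ 2, fun x hx y hy z hz => ?_, fun a b ha hb E hE => ?_,
    ⟨LF, rfl, fun x n hn h => LF_root hn h⟩, LF_rank.1, LF_rank.2, fun r s D t z hD A hA => ?_⟩
  · exact dep_of_one (quo_rank x hx) ⟨y, hy, rfl⟩ ⟨z, hz, rfl⟩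
  · exact line_coset hC quo_rank a b ha hb E hE
  have hrank : RkLe A (2 ^ (r + 2) * ((2 * D) ^ (r + 1) + s)) := by
    refine rkLe_of_logs (A := A) (R := fun l => ∃ x y, Pool.Agent.U945.LA.IsQuots D
      (Fin.cons (Real.exp 1 : ℂ) t : Fin (r + 1) → ℂ) x y ∧ Transcendental ℚ x ∧
        x * l + ∑ k, y k * (Fin.cons 1 z : Fin (s + 1) → ℂ) k ∈ Lt)
      (fun m l halg hli h => ?_) (fun x hx => ?_)
    · have h1 := many (Fin.cons (Real.exp 1 : ℂ) t : Fin (r + 1) → ℂ)
        (Fin.cons 1 z : Fin (s + 1) → ℂ) hD l halg hli h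
      have e1 : 2 ^ (r + 1 + 1) * ((2 * D) ^ (r + 1) + (s + 1) - 1) =
          2 ^ (r + 2) * ((2 * D) ^ (r + 1) + s) := by
        congr 1
      rw [e1] at h1
      exact h1
    · rw [hA] at hx
      obtain ⟨hxa, e, ⟨htr, P, Q, S, h1, h2, h3, h4, h5, h6⟩, l, hl, h7⟩ := hx
      exact ⟨hxa, l, hl, e.1, e.2, ⟨P, Q, S, h1, h2, h3, h4, h5, h6⟩, htr, h7⟩
  have hpos : 1 ≤ 2 ^ (r + 2) * ((2 * D) ^ (r + 1) + s) := by
    apply Nat.mul_pos (by positivity)
    have : 0 < (2 * D) ^ (r + 1) := Nat.pow_pos (by omega)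
    omega
  have hAalg : ∀ x ∈ A, IsAlgebraic ℚ (x : ℂ) := by
    intro x hx
    rw [hA] at hx
    exact hx.1
  refine ⟨?_, hrank, fun a b ha hb E hE => ?_, fun d => pack hAalg hrank d⟩
  · rintro x ⟨hxa, β, c, hβ, hβ0, hc, l, hl, h1⟩
    rw [hA]
    set b : algebraicClosure ℚ ℂ := ⟨β, mem_QB.2 hβ⟩ with hb
    set c' : algebraicClosure ℚ ℂ := ⟨c, mem_QB.2 hc⟩ with hc'
    refine ⟨hxa, (β * Real.exp 1, Fin.cons (β * c * Real.exp 1) 0), ⟨fun halg => ?_,
      MvPolynomial.C b * MvPolynomial.X 0, 1,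
      Fin.cons (MvPolynomial.C (b * c') * MvPolynomial.X 0) 0,
      fun i => ?_, fun i => ?_, fun k i => ?_, ?_, ?_, fun k => ?_⟩, l, hl, ?_⟩
    · apply e_tr
      have h2 : ((Real.exp 1 : ℝ) : ℂ) = β⁻¹ * (β * Real.exp 1) := by field_simp
      rw [h2]
      exact hβ.inv.mul halg
    · refine (MvPolynomial.degreeOf_C_mul_le _ _ _).trans ?_
      rw [MvPolynomial.degreeOf_X]
      split_ifs <;> omega
    · rw [MvPolynomial.degreeOf_one]; exact Nat.zero_le _
    · refine Fin.cases ?_ (fun k => ?_) k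
      · rw [Fin.cons_zero]
        refine (MvPolynomial.degreeOf_C_mul_le _ _ _).trans ?_
        rw [MvPolynomial.degreeOf_X]
        split_ifs <;> omega
      · rw [Fin.cons_succ, Pi.zero_apply, MvPolynomial.degreeOf_zero]; exact Nat.zero_le _
    · simp
    · simp [hb]
    · refine Fin.cases ?_ (fun k => ?_) k
      · simp [hb, hc']
      · simp
    · rw [Fin.sum_univ_succ]
      simp only [Fin.cons_zero, Fin.cons_succ, Pi.zero_apply, zero_mul, Finset.sum_const_zero,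
        add_zero]
      have h2 : β * Real.exp 1 * l + β * c * (Real.exp 1 : ℝ) * 1 =
          β * Real.exp 1 * (l + c) := by ring
      rw [h2]
      exact h1
  · have h1 := hC A _ hrank a b ha hb E hE
    refine h1.trans ?_
    rw [← pow_mul]
    exact Nat.pow_le_pow_right hC1 (by omega)

end Pool.Agent.Results.MP_58ae59_nt.AlgebraicBases
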