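import Pool.Agent.U829.JX.Main
import Pool.Agent.N743.SS.PiE

set_option autoImplicit false

/-!
# `e^e` and the numbers `e^(a e + b)`: digits in algebraic bases and continued fractions

The numbers `e^(e + r_i)` with different rational `r_i`, and the numbers `e^(a_i e + b_i)` with integer vectors
`(a_i, b_i)` no two of which are proportional, are jointly irregular (`JointlyIrregular`); the same is true for the
numbers `A_i(e) e^e + B_i(e)` with integer polynomials such that `deg (A_j B_i - A_i B_j) > max (deg A_i, deg A_j)`.

An expansion of a real number `x` is a sequence of digits of `x` in one of finitely many algebraic bases (integers or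
not; any digits `|a_i| ≤ B`), or the sequence of its partial quotients. Its height is `n log β` or the logarithm of
the denominator of the convergent. Any two expansions of two different numbers of the family are apart: they cannot
both be cut into few pieces (a single term or `U V V ... V V'`) and cannot both be announced by automata with few
errors, at no scale; for every `θ < 1` there is `c > 0` such that at every large height `Z` at most one of the
numbers has an expansion which up to the height `Z` can be cut into `c log Z` pieces of size `Z^θ` or announced with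
`c log Z` errors by an automaton with `S` states, `S log (M + 3) ≤ Z^θ`. If one of the numbers is algebraic then all
expansions of every other one are irregular by themselves. The digits of a rational number in an integer base are one
piece, its partial quotients end; a real quadratic number has periodic partial quotients.

Proof. A piece gives an integer polynomial of bounded degree with a very small value at the number (a norm from
`ℚ(β)` for digits, the determinant of two pairs of convergents for partial quotients; `Pool.Agent.U829.AB`,
`Pool.Agent.U829.CF`). Two of them, for two numbers of the family, contradict the joint measure of the starting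
library (`Pool.Agent.R473.JC`, from the transcendence measure of `e`).
-/

namespace Pool.Agent.Results.MP_58ae59_nt.AllExpansions

open Pool.Agent.U829.AB Pool.Agent.U829.JX
open Polynomial

/-- digits exist -/
theorem digits (F : Finset ℝ) (hF : ∀ β ∈ F, 1 < β ∧ IsAlgebraic ℤ β) (B T : ℕ) (β : ℝ) (hβ : β ∈ F)
    (hB : β < B + 1) (x : ℝ) (hx : |x| < β ^ T) :
    ∃ (a : ℕ → ℤ) (h : ℕ → ℝ), DigitCode {β} B T x a h ∧ Code F B T x a h := by
  obtain ⟨a, h, hc⟩ := exists_code {β} B T β (Finset.mem_singleton_self β) (hF β hβ).1 hB x hx
  refine ⟨a, h, hc, Or.inl ?_⟩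
  obtain ⟨γ, hγ, h1⟩ := hc
  rw [Finset.mem_singleton] at hγ
  subst hγ
  exact ⟨_, hβ, h1⟩

/-- **Theorem.** Let `F` be a finite set of real algebraic numbers `β > 1` and `B`, `T` natural numbers.

(1) The numbers `e^(e + r i)` with different rational `r i` are jointly irregular.

(2) The numbers `e^(a i * e + b i)` with integers `a i`, `b i` are jointly irregular if the vectors `(a i, b i)` are
pairwise linearly independent.

(3) The numbers `A_i(e) e^e + B_i(e)`, `A_i`, `B_i` integer polynomials, are jointly irregular if
`deg (A_j B_i - A_i B_j) > max (deg A_i, deg A_j)` for `i ≠ j`; for instance the numbers `e^e + m e`, `m` in a finite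
set of integers.

(4) Digits exist: if `β ∈ F`, `β < B + 1` and `|x| < β^T` then `x` has such a sequence of digits in base `β`. -/
theorem result (F : Finset ℝ) (hF : ∀ β ∈ F, 1 < β ∧ IsAlgebraic ℤ β) (B T : ℕ) :
    (∀ (k : ℕ) (r : Fin k → ℚ), Function.Injective r →
      JointlyIrregular F B T fun i => Real.exp (Real.exp 1 + r i)) ∧
    (∀ (k : ℕ) (a b : Fin k → ℤ), (∀ i j, i ≠ j → a i * b j - b i * a j ≠ 0) →
      JointlyIrregular F B T fun i => Real.exp (a i * Real.exp 1 + b i)) ∧
    (∀ (k : ℕ) (P Q : Fin k → ℤ[X]), (∀ i j, i ≠ j →
        max (P i).natDegree (P j).natDegree < (P j * Q i - P i * Q j).natDegree) →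
      JointlyIrregular F B T fun i =>
        aeval (Real.exp 1) (P i) * Real.exp (Real.exp 1) + aeval (Real.exp 1) (Q i)) ∧
    (∀ β ∈ F, β < B + 1 → ∀ x : ℝ, |x| < β ^ T → ∃ (a : ℕ → ℤ) (h : ℕ → ℝ), DigitCode {β} B T x a h ∧ Code F B T x a h) := by
  refine ⟨fun k r hr => ?_, fun k a b h => ?_, fun k P Q h => ?_,
    fun β hβ hB x hx => digits F hF B T β hβ hB x hx⟩
  · refine jointlyIrregular F hF B T _ fun i j hij => ?_
    have h := Pool.Agent.N743.SS.joint_exp (Real.exp (Real.exp 1)) (Real.exp_pos _).ne' (r i) (r j)
      fun h => hij (hr h)
    rw [← Real.exp_add, ← Real.exp_add, add_comm ((r i : ℚ) : ℝ), add_comm ((r j : ℚ) : ℝ)] at h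
    exact h
  · have h1 : (fun i => Real.exp (a i * Real.exp 1 + b i)) =
        fun i => Real.exp (Real.exp 1) ^ a i * Real.exp 1 ^ b i := by
      funext i
      rw [Real.exp_add, mul_comm ((a i : ℤ) : ℝ) (Real.exp 1), Real.exp_mul, Real.rpow_intCast,
        ← Real.rpow_intCast (Real.exp 1) (b i), ← Real.exp_mul, one_mul]
    rw [h1]
    exact jointlyIrregular F hF B T _ fun i j hij => Pool.Agent.U455.JA.joint_mono (Real.exp 1)
      Pool.Agent.TH456.TM.measT_e _ (Real.exp_pos _).ne' (a i) (b i) (a j) (b j) (h i j hij)
  · exact jointlyIrregular F hF B T _ fun i j hij => Pool.Agent.U455.JA.joint_aff (Real.exp 1)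
      Pool.Agent.TH456.TM.measT_e _ (P i) (Q i) (P j) (Q j) (h i j hij)

end Pool.Agent.Results.MP_58ae59_nt.AllExpansions
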