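import Pool.Agent.U455.JA
import Pool.Agent.N743.SS.PiE

/-!
# `e^e` among the numbers `e^(a e + b)`: blocks of digits and finite automata, at all scales

Two families are considered: the numbers `e^(e + r)` with different rational `r`, one of which is `e^e`; and the
numbers `e^(a e + b)` with integers `a`, `b` such that no two of the vectors `(a, b)` are proportional.

Blocks: the first `N` digits of a number in base `b` are covered by `s` blocks (one digit may be omitted between
two blocks), and every block `d_(u+1), …, d_v` satisfies an algebraic relation of its own, of degree at most `r`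
in `D(X) = d_(u+1) X + ⋯ + d_v X^(v-u)` with coefficients of degree at most `k` in `X`. Automata: an
automaton with `Q` states reads the digits one after the other and predicts each next digit from its state.
The digits of a rational number form one block with `r = 1` and bounded `k`, and are predicted by an
automaton with finitely many errors.

For any two of the numbers `x`, `y`, for all bases `β`, `β'`, all lengths and all `k`, `k'`, `s`, `s'`

`min (N log β, N' log β') ≤ A^(s+s') ((k+1) log β + (k'+1) log β')`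

if the first `N` digits of `x` in base `β` and the first `N'` digits of `y` in base `β'` are covered by `s`
and `s'` such blocks; the same with `E + E' + 2` in place of `s + s'` for two automata with `k` and `k'`
states which make `E` and `E'` errors. Hence at every large scale `Z` the digits of all but at most one of
finitely many of the numbers are rough: in no base `b` are the first `N` digits, `N log b ≥ Z`, covered by
at most `c log Z` blocks with `(k + 1) log b ≤ Z^θ` (`θ < 1`), or predicted by an automaton with `k`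
states, `(k + 1) log b ≤ Z^θ`, with at most `c log Z` errors.

The proof: multiplied by `b^u` a number turns a relation for a block of its digits, from the
`(u+1)`-st to the `v`-th, into an integer polynomial of bounded degree which is small at the number. Two
such polynomials contradict the joint measure of the two numbers (from the measures for `e` and for the exponential function of the starting library,
`Pool.Agent.N743.SS`, `Pool.Agent.R473.JC`); then induction on the number of blocks
(`Pool.Agent.U455.JB.blocks2`).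

If `e^e` is rational then its digits are simple at all scales, in all bases, and by the theorem those of all the
other numbers of a finite family are rough at all large scales.

-/

set_option autoImplicit false

namespace Pool.Agent.Results.MP_58ae59_nt.DigitBlocks

open Polynomial

/-- the `i`-th digit of `x` after the point in base `b` -/
noncomputable def digit (b : ℕ) (x : ℝ) (i : ℕ) : ℤ := ⌊x * (b : ℝ) ^ i⌋ % (b : ℤ)

/-- the polynomial `d_(u+1) X + ⋯ + d_v X^(v-u)`, where `d_i` is the `i`-th digit of `x` -/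
noncomputable def blockPoly (b : ℕ) (x : ℝ) (u v : ℕ) : ℚ[X] :=
  ∑ l ∈ Finset.Icc 1 (v - u), C (digit b x (u + l) : ℚ) * X ^ l

/-- there is a nonzero polynomial `P(X, Y)` over `ℚ` of degree `≤ r` in `Y` and `≤ k` in `X` such
that `P(X, D(X))` is divisible by `X^(v-u+1)`, where `D(X) = d_(u+1) X + ⋯ + d_v X^(v-u)` -/
def AlgRelation (b : ℕ) (x : ℝ) (r u v k : ℕ) : Prop :=
  ∃ P : ℚ[X][X], P ≠ 0 ∧ P.natDegree ≤ r ∧ (∀ j, (P.coeff j).natDegree ≤ k) ∧
    X ^ (v - u + 1) ∣ P.eval (blockPoly b x u v)

/-- The first `N` digits of `x` in base `b` are covered by `s` blocks, from the `(u_i + 1)`-st to the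
`v_i`-th digit, `i < s`, where `u_0 = 0`, `u_s = N` and `u_(i+1) ≤ v_i + 1` (one digit may be omitted
between two blocks), and every block satisfies an algebraic relation of degree at most `r` with
coefficients of degree at most `k` (each block one of its own). -/
def Blocks (b : ℕ) (x : ℝ) (r k s N : ℕ) : Prop :=
  ∃ u v : ℕ → ℕ, u 0 = 0 ∧ u s = N ∧
    ∀ i < s, u i ≤ v i ∧ u (i + 1) ≤ v i + 1 ∧ AlgRelation b x r (u i) (v i) k

/-- the state of the automaton with transitions `δ` and initial state `q₀` after it has read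
`d 1, …, d n` -/
def run {Q : ℕ} (δ : Fin Q → ℤ → Fin Q) (q₀ : Fin Q) (d : ℕ → ℤ) : ℕ → Fin Q
  | 0 => q₀
  | n + 1 => δ (run δ q₀ d n) (d (n + 1))

/-- the number of errors of the automaton on `d 1, …, d N`: the number of `n < N` such that the
prediction `out` of the state after `d 1, …, d n` is not `d (n + 1)` -/
def errors {Q : ℕ} (δ : Fin Q → ℤ → Fin Q) (q₀ : Fin Q) (out : Fin Q → ℤ) (d : ℕ → ℤ) (N : ℕ) : ℕ :=
  ((Finset.range N).filter fun n => out (run δ q₀ d n) ≠ d (n + 1)).card

/-- the joint lower bound for blocks with relations of degree at most `r` -/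
def BlockBound (A : ℝ) (r : ℕ) (x y : ℝ) : Prop :=
  ∀ β β' : ℕ, 2 ≤ β → 2 ≤ β' → ∀ k k' s s' N N' : ℕ, Blocks β x r k s N → Blocks β' y r k' s' N' →
    min (N * Real.log β) (N' * Real.log β') ≤
      A ^ (s + s') * ((k + 1) * Real.log β + (k' + 1) * Real.log β')

/-- the joint lower bound for automata -/
def AutomatonBound (A : ℝ) (x y : ℝ) : Prop :=
  ∀ β β' : ℕ, 2 ≤ β → 2 ≤ β' → ∀ (Q Q' : ℕ) (δ : Fin Q → ℤ → Fin Q) (q₀ : Fin Q)
    (out : Fin Q → ℤ) (δ' : Fin Q' → ℤ → Fin Q') (q₀' : Fin Q') (out' : Fin Q' → ℤ) (N N' : ℕ),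
    min (N * Real.log β) (N' * Real.log β') ≤
      A ^ (errors δ q₀ out (digit β x) N + errors δ' q₀' out' (digit β' y) N' + 2) *
        ((Q + 1) * Real.log β + (Q' + 1) * Real.log β')

/-- The digits of `x` are simple at the scale `Z`, in the sense of blocks: for some base `b`, the
first `N` digits, `N log b ≥ Z`, are covered by `s ≤ c log Z` blocks with algebraic relations of degree
at most `r` with coefficients of degree at most `k`, where `(k + 1) log b ≤ Z^θ`. -/
def Simple (r : ℕ) (θ c Z x : ℝ) : Prop :=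
  ∃ b N k s : ℕ, 2 ≤ b ∧ Z ≤ N * Real.log b ∧ (k + 1) * Real.log b ≤ Z ^ θ ∧
    (s : ℝ) ≤ c * Real.log Z ∧ Blocks b x r k s N

/-- The digits of `x` are predictable at the scale `Z`: for some base `b` an automaton with `Q` states,
`(Q + 1) log b ≤ Z^θ`, makes at most `c log Z` errors on the first `N` digits, `N log b ≥ Z`. -/
def Predictable (θ c Z x : ℝ) : Prop :=
  ∃ b N Q : ℕ, 2 ≤ b ∧ Z ≤ N * Real.log b ∧ (Q + 1) * Real.log b ≤ Z ^ θ ∧
    ∃ (δ : Fin Q → ℤ → Fin Q) (q₀ : Fin Q) (out : Fin Q → ℤ),
      (errors δ q₀ out (digit b x) N : ℝ) ≤ c * Real.log Z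

/-- The three statements for the digits of finitely many numbers `x i`:
for every `r` the joint lower bound `BlockBound` for any two of them, with one constant; the joint
lower bound `AutomatonBound`; and for every `r` and `θ < 1` there is `c > 0` such that at every large
scale the digits of at most one of the numbers are simple, and those of at most one of the numbers
are predictable. -/
def JointlyComplex {n : ℕ} (x : Fin n → ℝ) : Prop :=
  (∀ r : ℕ, ∃ A : ℝ, 1 ≤ A ∧ ∀ i j, i ≠ j → BlockBound A r (x i) (x j)) ∧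
  (∃ A : ℝ, 1 ≤ A ∧ ∀ i j, i ≠ j → AutomatonBound A (x i) (x j)) ∧
  (∀ (r : ℕ) (θ : ℝ), θ < 1 → ∃ c Z₀ : ℝ, 0 < c ∧ ∀ Z : ℝ, Z₀ ≤ Z →
    (∀ i j, Simple r θ c Z (x i) → Simple r θ c Z (x j) → i = j) ∧
    (∀ i j, Predictable θ c Z (x i) → Predictable θ c Z (x j) → i = j))

theorem brel_of_alg {b : ℕ} {x : ℝ} {r u v k : ℕ} (h : AlgRelation b x r u v k) :
    Pool.Agent.U455.JB.BRel b x r u v k := by
  obtain ⟨P, hP0, hPr, hPk, hX⟩ := h
  refine ⟨fun j => P.coeff j, ?_, fun j => hPk j, ?_⟩
  · intro h0
    apply hP0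
    ext1 j
    by_cases hj : j < r + 1
    · have := congrFun h0 ⟨j, hj⟩
      simpa using this
    · rw [coeff_eq_zero_of_natDegree_lt (by omega), coeff_zero]
  · rw [eval_eq_sum_range' (show P.natDegree < r + 1 by omega), Finset.sum_range] at hX
    exact hX

theorem blk {b : ℕ} {x : ℝ} {r k s N : ℕ} (h : Blocks b x r k s N) :
    Pool.Agent.U455.JF.Blk b x r k s N := by
  obtain ⟨u, v, hu, hs, h⟩ := h
  exact ⟨u, v, hu, hs, fun i hi => ⟨(h i hi).1, (h i hi).2.1, brel_of_alg (h i hi).2.2⟩⟩

theorem run_eq {Q : ℕ} (δ : Fin Q → ℤ → Fin Q) (q₀ : Fin Q) (d : ℕ → ℤ) (n : ℕ) :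
    run δ q₀ d n = Pool.Agent.R473.FP.run δ q₀ d n := by
  induction n with
  | zero => rfl
  | succ n ih =>
    change δ (run δ q₀ d n) (d (n + 1)) = δ (Pool.Agent.R473.FP.run δ q₀ d n) (d (n + 1))
    rw [ih]

theorem errors_eq {Q : ℕ} (δ : Fin Q → ℤ → Fin Q) (q₀ : Fin Q) (out : Fin Q → ℤ) (d : ℕ → ℤ)
    (N : ℕ) : errors δ q₀ out d N = Pool.Agent.R473.FP.errors δ q₀ out d N := by
  unfold errors Pool.Agent.R473.FP.errors
  simp only [run_eq]

theorem jointlyComplex {n : ℕ} (x : Fin n → ℝ)
    (h : ∀ i j, i ≠ j → Pool.Agent.R356.JointR (x i) (x j)) : JointlyComplex x := by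
  refine ⟨fun r => ?_, ?_, fun r θ hθ => ?_⟩
  · obtain ⟨A, hA, H⟩ := Pool.Agent.U455.JF.blocks_fam x h r
    exact ⟨A, hA, fun i j hij β β' hβ hβ' k k' s s' N N' h1 h2 =>
      H i j hij β β' hβ hβ' k k' s s' N N' (blk h1) (blk h2)⟩
  · obtain ⟨A, hA, H⟩ := Pool.Agent.U455.JF.fs_fam x h
    refine ⟨A, hA, fun i j hij β β' hβ hβ' Q Q' δ q₀ out δ' q₀' out' N N' => ?_⟩
    rw [errors_eq, errors_eq]
    exact H i j hij β β' hβ hβ' Q Q' δ q₀ out δ' q₀' out' N N'
  · obtain ⟨c, Z₀, hc, -, H⟩ := Pool.Agent.U455.JF.large_fam x h r θ hθ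
    refine ⟨c, Z₀, hc, fun Z hZ => ⟨fun i j hi hj => (H Z hZ).1 i j ?_ ?_,
      fun i j hi hj => (H Z hZ).2 i j ?_ ?_⟩⟩
    · obtain ⟨b, N, k, s, h1, h2, h3, h4, h5⟩ := hi
      exact ⟨b, N, k, s, h1, h2, h3, h4, blk h5⟩
    · obtain ⟨b, N, k, s, h1, h2, h3, h4, h5⟩ := hj
      exact ⟨b, N, k, s, h1, h2, h3, h4, blk h5⟩
    · obtain ⟨b, N, Q, h1, h2, h3, δ, q₀, out, h4⟩ := hi
      rw [errors_eq] at h4
      exact ⟨b, N, Q, h1, h2, h3, δ, q₀, out, h4⟩
    · obtain ⟨b, N, Q, h1, h2, h3, δ, q₀, out, h4⟩ := hj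
      rw [errors_eq] at h4
      exact ⟨b, N, Q, h1, h2, h3, δ, q₀, out, h4⟩

/-- **Digits of `e^e` and of the numbers `e^(a e + b)`.**

(1) The numbers `e^(e + r i)` with different rational `r i` are jointly complex.

(2) The numbers `e^(a i * e + b i)` with integers `a i`, `b i` are jointly complex if the vectors
`(a i, b i)` are pairwise linearly independent.

(3) At most one of finitely many such numbers is rational or, more generally, has digits which are simple at
infinitely many scales in the sense of (a)-(c): if the digits of `e^e` are predictable at a large scale `Z`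
then those of the other numbers are not. -/
theorem result :
    (∀ (n : ℕ) (r : Fin n → ℚ), Function.Injective r →
      JointlyComplex fun i => Real.exp (Real.exp 1 + r i)) ∧
    (∀ (n : ℕ) (a b : Fin n → ℤ), (∀ i j, i ≠ j → a i * b j - b i * a j ≠ 0) →
      JointlyComplex fun i => Real.exp (a i * Real.exp 1 + b i)) ∧
    (∀ (n : ℕ) (r : Fin n → ℚ), Function.Injective r → ∀ i₀, r i₀ = 0 → ∀ θ : ℝ, θ < 1 →
      ∃ c Z₀ : ℝ, 0 < c ∧ ∀ Z : ℝ, Z₀ ≤ Z → Predictable θ c Z (Real.exp (Real.exp 1)) →
        ∀ i, i ≠ i₀ → ¬ Predictable θ c Z (Real.exp (Real.exp 1 + r i))) := by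
  have part1 : ∀ (n : ℕ) (r : Fin n → ℚ), Function.Injective r →
      JointlyComplex fun i => Real.exp (Real.exp 1 + r i) := by
    intro n r hr
    refine jointlyComplex _ fun i j hij => ?_
    have h := Pool.Agent.N743.SS.joint_exp (Real.exp (Real.exp 1)) (Real.exp_pos _).ne' (r i) (r j)
      fun h => hij (hr h)
    rw [← Real.exp_add, ← Real.exp_add, add_comm ((r i : ℚ) : ℝ), add_comm ((r j : ℚ) : ℝ)] at h
    exact h
  refine ⟨part1, fun n a b h => ?_, fun n r hr i₀ h0 θ hθ => ?_⟩
  · have h1 : (fun i => Real.exp (a i * Real.exp 1 + b i)) =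
        fun i => Real.exp (Real.exp 1) ^ a i * Real.exp 1 ^ b i := by
      funext i
      rw [Real.exp_add, mul_comm ((a i : ℤ) : ℝ) (Real.exp 1), Real.exp_mul, Real.rpow_intCast,
        ← Real.rpow_intCast (Real.exp 1) (b i), ← Real.exp_mul, one_mul]
    rw [h1]
    exact jointlyComplex _ fun i j hij => Pool.Agent.U455.JA.joint_mono (Real.exp 1)
      Pool.Agent.TH456.TM.measT_e _ (Real.exp_pos _).ne' (a i) (b i) (a j) (b j) (h i j hij)
  · obtain ⟨-, -, h3⟩ := part1 n r hr
    obtain ⟨c, Z₀, hc, H⟩ := h3 0 θ hθ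
    refine ⟨c, Z₀, hc, fun Z hZ h1 i hi h2 => hi ?_⟩
    refine (H Z hZ).2 i i₀ h2 ?_
    show Predictable θ c Z (Real.exp (Real.exp 1 + ((r i₀ : ℚ) : ℝ)))
    rw [h0]
    simpa using h1

end Pool.Agent.Results.MP_58ae59_nt.DigitBlocks
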