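import Pool.Agent.U831.MU.Compat

/-!
# The numbers `e^{P(e)}`: the exceptional polynomials lie in one hyperplane

Consider the numbers `e^{P(e)}` with a polynomial `P = (p_0 + p_1 X + ⋯ + p_d X^d) / q`, where `q` is
fixed and the `p_i` are integers of absolute value at most `E`; `P = X` gives `e^e`. For constant
`P ≠ 0` they are transcendental; no other one is known to be irrational. A number `x` is good at the
scale `N` if for ALL nonconstant integer polynomials `f` of degree at most `D` with coefficients at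
most `N ^ c` the multiples `n f(x)`, `n < N`, are equidistributed modulo one with discrepancy
`N ^ (-c)`. Algebraic numbers of degree at most `D` are good at no large scale.

For all `d, q, E, D, M` there is `c > 0` such that for every large `X` there are rational numbers
`w_1, …, w_d` such that at ALL scales `N` between `X` and `X ^ M` all the numbers `e^{P(e)}` with
`p_0 ≠ w_1 p_1 + ⋯ + w_d p_d` are good; and `p_0 = w_1 p_1 + ⋯ + w_d p_d` for all `P` such that
`e^{P(e)}` is algebraic of degree at most `D`. So for each `(p_1, …, p_d)` there is at most one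
exceptional `p_0` on the whole range of scales, and it depends linearly on `(p_1, …, p_d)`: among the
`(2 E + 1)^(d + 1)` numbers at most `(2 E + 1)^d` are exceptional. For instance the exceptional ones
among the numbers `e^{a e + b}` (`d = 1`) are those with `b = w a`.

The proof: a number which is not good is close to an algebraic number of degree at most `D` and small
height. Numbers of this kind are closed under multiplication, with any number of factors (a
joint transcendence measure of several numbers, `Pool.Agent.U831.MU.multi`). If the vectors of the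
exceptional polynomials at the scales between `X` and `X ^ M` spanned a space which contains the
constant polynomials, this would contradict the transcendence measure of a power of `e`.
-/

set_option autoImplicit false

namespace Pool.Agent.Results.MP_58ae59_nt.ExceptionalPolynomials

open Polynomial

/-- The number of `n < N` with the fractional part of `n α + γ` in `[u, v)`. -/
noncomputable def count (α γ u v : ℝ) (N : ℕ) : ℕ :=
  ((Finset.range N).filter fun n : ℕ =>
    u ≤ Int.fract (n * α + γ) ∧ Int.fract (n * α + γ) < v).card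

/-- The sequence `n α + γ` (`n < N`) modulo one has discrepancy at most `Δ`, for every shift `γ`. -/
def DiscrepancyLe (α : ℝ) (N : ℕ) (Δ : ℝ) : Prop :=
  ∀ γ u v : ℝ, 0 ≤ u → u ≤ v → v ≤ 1 → |(count α γ u v N : ℝ) - (v - u) * N| ≤ Δ * N

/-- `x` is good at the scale `N`: the multiples of all the numbers `f(x)`, where `f` is a
nonconstant integer polynomial of degree at most `D` with coefficients at most `N ^ c`, are
equidistributed with discrepancy at most `N ^ (-c)`. -/
def Good (D : ℕ) (c : ℝ) (N : ℕ) (x : ℝ) : Prop :=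
  ∀ f : ℤ[X], 1 ≤ f.natDegree → f.natDegree ≤ D → (∀ k, |(f.coeff k : ℝ)| ≤ (N : ℝ) ^ c) →
    DiscrepancyLe (aeval x f) N ((N : ℝ) ^ (-c))

/-- The exceptional polynomials `P` for `e^{P(e)}` on a long range of scales lie in a hyperplane
which does not contain the constants. -/
theorem result (d q E D : ℕ) (hq : 1 ≤ q) (M : ℝ) (hM : 2 ≤ M) :
    ∃ c : ℝ, 0 < c ∧ ∃ X₀ : ℝ, ∀ X : ℝ, X₀ ≤ X → ∃ w : Fin d → ℚ,
      ∀ (p₀ : ℤ) (p : Fin d → ℤ), |p₀| ≤ E → (∀ i, |p i| ≤ E) →
        ((∃ P : ℤ[X], P ≠ 0 ∧ P.natDegree ≤ D ∧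
          aeval (Real.exp ((p₀ + ∑ i : Fin d, p i * Real.exp 1 ^ ((i : ℕ) + 1)) / q)) P = 0) →
            (p₀ : ℚ) = ∑ i, w i * p i) ∧
        ((p₀ : ℚ) ≠ ∑ i, w i * p i → ∀ N : ℕ, X ≤ N → (N : ℝ) ≤ X ^ M →
          Good D c N (Real.exp ((p₀ + ∑ i : Fin d, p i * Real.exp 1 ^ ((i : ℕ) + 1)) / q))) := by
  classical
  have hq0 : (q : ℝ) ≠ 0 := by
    have : (0 : ℝ) < q := by exact_mod_cast hq
    exact this.ne'
  have hqQ : (q : ℚ) ≠ 0 := by
    have : (0 : ℚ) < q := by exact_mod_cast hq
    exact this.ne'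
  have hx : Pool.Agent.TH456.TM.MeasT ((Real.exp (1 / q) : ℝ) : ℂ) := by
    have h := Pool.Agent.TH456.TM.measT_rpow (Real.exp 1) (Real.exp_pos 1)
      Pool.Agent.TH456.TM.measT_e (1 / q) (by positivity)
    rw [← Real.exp_mul, one_mul] at h
    have e : (((1 / q : ℚ) : ℝ)) = 1 / q := by push_cast; rfl
    rw [e] at h
    exact h
  obtain ⟨c, hc, X₀, h⟩ := Pool.Agent.U831.MU.engine' _ _ _ _ D M hM
    (Pool.Agent.U831.MU.mono (fun i : Fin d => Real.exp (Real.exp 1 ^ ((i : ℕ) + 1) / q))
    (fun i => Real.exp_ne_zero _) (Real.exp (1 / q)) (Real.exp_ne_zero _) hx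
    (Finset.Icc (-(E : ℤ)) E ×ˢ (Fintype.piFinset fun _ : Fin d => Finset.Icc (-(E : ℤ)) E))
    (fun _ => 1) (fun _ _ => one_ne_zero) (fun _ _ => isAlgebraic_one) (fun t => t.2)
    (fun t => t.1) D M (by linarith))
  refine ⟨c, hc, X₀, fun X hX => ?_⟩
  obtain ⟨w, hw1, hw2⟩ := h X hX
  refine ⟨w, fun p₀ p hp₀ hp => ?_⟩
  have hmem : (p₀, p) ∈ Finset.Icc (-(E : ℤ)) E ×ˢ
      (Fintype.piFinset fun _ : Fin d => Finset.Icc (-(E : ℤ)) E) := by
    rw [Finset.mem_product]
    refine ⟨?_, ?_⟩
    · rw [Finset.mem_Icc]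
      exact abs_le.1 hp₀
    · rw [Fintype.mem_piFinset]
      intro i
      rw [Finset.mem_Icc]
      exact abs_le.1 (hp i)
  have h4 : Real.exp ((p₀ + ∑ i : Fin d, p i * Real.exp 1 ^ ((i : ℕ) + 1)) / q) =
      1 * (∏ i : Fin d, Real.exp (Real.exp 1 ^ ((i : ℕ) + 1) / q) ^ p i) *
        Real.exp (1 / q) ^ p₀ := by
    have e1 : ∀ (y : ℝ) (k : ℤ), Real.exp y ^ k = Real.exp (k * y) := by
      intro y k
      rw [← Real.rpow_intCast, ← Real.exp_mul, mul_comm]
    simp only [e1]
    rw [one_mul, ← Real.exp_sum, ← Real.exp_add]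
    congr 1
    rw [add_div, add_comm, Finset.sum_div]
    congr 1
    · refine Finset.sum_congr rfl fun i _ => ?_
      ring
    · ring
  rw [h4]
  exact ⟨fun hP => hw1 (p₀, p) hmem hP, fun hne N hN1 hN2 => hw2 (p₀, p) hmem hne N hN1 hN2⟩

end Pool.Agent.Results.MP_58ae59_nt.ExceptionalPolynomials
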